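import Pool.Agent.Helper95.PM.Stmts
import Pool.Agent.Helper77.PW.HF

/-! # Row HFM -/

set_option autoImplicit false

namespace Pool.Agent.Helper95.PW

open MeasureTheory Filter

theorem HFM_eq {n M : ℕ} (X : Fin M → R3) (Z : Fin M → ℝ) (v : Cf n → ℝ) (x : Cf n) :
    hmM X Z v x = hm 0 v x - (∑ k, pot X Z (x k)) * v x := by
  unfold hmM hm
  ring

theorem st_HFM : ST_HFM := by
  intro n M X Z g v x hg hv
  rw [HFM_eq, HFM_eq, st_HF n 0 g v x hg hv]
  unfold Fg
  ring

end Pool.Agent.Helper95.PW
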